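import Mathlib

set_option autoImplicit false

namespace Pool.Agent.Results.MP_de5a23_al.NoContiguousJordanType

open IsLocalRing

/-- The Hilbert function of a local `k`-algebra: `h_i = dim_k (m^i / m^(i+1))`. -/
noncomputable def hilb (k K : Type*) [Field k] [CommRing K] [IsLocalRing K] [Algebra k K]
    (i : ℕ) : ℕ :=
  Module.finrank k
    (((maximalIdeal K) ^ i).restrictScalars k ⧸
      ((((maximalIdeal K) ^ (i + 1)).restrictScalars k).submoduleOf
        (((maximalIdeal K) ^ i).restrictScalars k)))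

/-- A sequence that weakly increases and then weakly decreases. -/
def Unimodal (h : ℕ → ℕ) : Prop :=
  ∃ m : ℕ, (∀ i j, i ≤ j → j ≤ m → h i ≤ h j) ∧ (∀ i j, m ≤ i → i ≤ j → h j ≤ h i)

/-- The runs at all levels: triples `(c, a, b)` with `c ≥ 1` such that `{a, …, b}` is a maximal run of consecutive
integers in `{i | c ≤ h i}`. -/
def runs (h : ℕ → ℕ) : Set (ℕ × ℕ × ℕ) :=
  {r | 1 ≤ r.1 ∧ r.2.1 ≤ r.2.2 ∧ (∀ i, r.2.1 ≤ i → i ≤ r.2.2 → r.1 ≤ h i) ∧
    (∀ i, i + 1 = r.2.1 → h i < r.1) ∧ h (r.2.2 + 1) < r.1}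

/-- `P` is the contiguous partition `P_c(h)`: the multiset of lengths of all the runs. -/
def IsContiguousPartition (h : ℕ → ℕ) (P : Multiset ℕ) : Prop :=
  ∃ hf : (runs h).Finite, P = hf.toFinset.val.map (fun r => r.2.2 + 1 - r.2.1)

/-- `P` is the multiset of Jordan block sizes of multiplication by `ℓ` on `K`: there are
elements `v_i` with `ℓ^(len i) v_i = 0` such that the `ℓ^j v_i` with `j < len i` form a
`k`-basis of `K`, and `P` is the multiset of the `len i`. -/
def IsJordanType (k K : Type*) [Field k] [CommRing K] [Algebra k K] (ℓ : K)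
    (P : Multiset ℕ) : Prop :=
  ∃ (n : ℕ) (len : Fin n → ℕ) (v : Fin n → K),
    (∀ i, 0 < len i) ∧ (∀ i, ℓ ^ (len i) * v i = 0) ∧
    LinearIndependent k (fun p : (Σ i : Fin n, Fin (len i)) => ℓ ^ (p.2 : ℕ) * v p.1) ∧
    Submodule.span k (Set.range (fun p : (Σ i : Fin n, Fin (len i)) => ℓ ^ (p.2 : ℕ) * v p.1)) = ⊤ ∧
    P = (Finset.univ : Finset (Fin n)).val.map len

section combinatorics

/-- window counting: lower bound for sum of (len - s) over runs. -/
lemma sum_le_runs (h : ℕ → ℕ) (s N : ℕ) (g : ℕ → ℕ) (hf : (runs h).Finite)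
    (hz : ∀ i, N ≤ i → h i = 0)
    (hg : ∀ i, ∀ j, i ≤ j → j ≤ i + s → g i ≤ h j) (M : ℕ) :
    ∑ i ∈ Finset.range M, g i ≤ ∑ r ∈ hf.toFinset, (r.2.2 + 1 - r.2.1 - s) := by
  classical
  have key : ∀ i c, 1 ≤ c → c ≤ g i → ∃ a b, (c, a, b) ∈ runs h ∧ a ≤ i ∧ i + s ≤ b := by
    intro i c hc1 hc
    -- right end
    have hex : ∃ b, i + s ≤ b ∧ h (b + 1) < c := by
      refine ⟨max N (i + s), le_max_right _ _, ?_⟩
      rw [hz _ (by omega)]; omega
    have hexl : ∃ a, a ≤ i ∧ ∀ j, a ≤ j → j ≤ i → c ≤ h j :=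
      ⟨i, le_rfl, fun j h1 h2 => by
        have : j = i := by omega
        subst this
        exact hc.trans (hg j j le_rfl (by omega))⟩
    refine ⟨Nat.find hexl, Nat.find hex, ?_, (Nat.find_spec hexl).1, (Nat.find_spec hex).1⟩
    have ha := Nat.find_spec hexl
    have hb := Nat.find_spec hex
    refine ⟨hc1, by simp only; omega, ?_, ?_, hb.2⟩
    · intro j h1 h2
      simp only at h1 h2
      by_cases hj : j ≤ i
      · exact ha.2 j h1 hj
      · by_cases hj2 : j ≤ i + s
        · exact hc.trans (hg i j (by omega) hj2)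
        · by_contra hcon
          have : Nat.find hex ≤ j - 1 := by
            apply Nat.find_min'
            refine ⟨by omega, ?_⟩
            have : j - 1 + 1 = j := by omega
            rw [this]; simp only at hcon; omega
          omega
    · intro j hj
      simp only at hj
      by_contra hcon
      have : Nat.find hexl ≤ j := by
        apply Nat.find_min'
        refine ⟨by omega, ?_⟩
        intro j' h1 h2
        by_cases h3 : j' = j
        · subst h3; simp only at hcon; omega
        · exact ha.2 j' (by omega) h2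
      omega
  -- counting
  have e1 : ∑ r ∈ hf.toFinset, (r.2.2 + 1 - r.2.1 - s)
      = (hf.toFinset.sigma (fun r => Finset.Ico r.2.1 (r.2.2 + 1 - s))).card := by
    rw [Finset.card_sigma]
    apply Finset.sum_congr rfl
    intro r _
    rw [Nat.card_Ico]; omega
  have e2 : ∑ i ∈ Finset.range M, g i
      = ((Finset.range M).sigma (fun i => Finset.Ico 1 (g i + 1))).card := by
    rw [Finset.card_sigma]
    apply Finset.sum_congr rfl
    intro i _
    rw [Nat.card_Ico]; omega
  rw [e1, e2]
  have hch : ∀ p : (Σ _ : ℕ, ℕ), ∃ a b, (1 ≤ p.2 → p.2 ≤ g p.1 →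
      (p.2, a, b) ∈ runs h ∧ a ≤ p.1 ∧ p.1 + s ≤ b) := by
    intro p
    by_cases h1 : 1 ≤ p.2 ∧ p.2 ≤ g p.1
    · obtain ⟨a, b, hab⟩ := key p.1 p.2 h1.1 h1.2
      exact ⟨a, b, fun _ _ => hab⟩
    · exact ⟨0, 0, fun h2 h3 => absurd ⟨h2, h3⟩ h1⟩
  choose A B hAB using hch
  apply Finset.card_le_card_of_injOn
    (fun p => (⟨(p.2, A p, B p), p.1⟩ : Σ _ : ℕ × ℕ × ℕ, ℕ))
  · intro p hp
    simp only [Finset.coe_sigma, Set.mem_sigma_iff, Finset.mem_coe, Finset.mem_range,
      Finset.mem_Ico] at hp
    have := hAB p hp.2.1 (by omega)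
    simp only [Finset.coe_sigma, Set.mem_sigma_iff, Finset.mem_coe, Set.Finite.mem_toFinset,
      Finset.mem_Ico]
    refine ⟨this.1, this.2.1, by omega⟩
  · intro p hp q hq hpq
    simp only [Sigma.mk.injEq, Prod.mk.injEq, heq_eq_eq] at hpq
    obtain ⟨p1, p2⟩ := p
    obtain ⟨q1, q2⟩ := q
    simp only at hpq
    obtain ⟨⟨h1, _, _⟩, h2⟩ := hpq
    subst h1 h2
    rfl

lemma runs_finite (h : ℕ → ℕ) (N B : ℕ) (hz : ∀ i, N ≤ i → h i = 0) (hB : ∀ i, h i ≤ B) :
    (runs h).Finite := by
  apply Set.Finite.subset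
    ((Set.finite_Iic B).prod ((Set.finite_Iic N).prod (Set.finite_Iic N)))
  rintro ⟨c, a, b⟩ ⟨h1, h2, h3, -, -⟩
  simp only at h1 h2 h3
  have hb := h3 b h2 le_rfl
  have hbN : b < N := by
    by_contra hcon
    rw [hz b (by omega)] at hb
    omega
  simp only [Set.mem_prod, Set.mem_Iic]
  exact ⟨hb.trans (hB b), by omega, by omega⟩

/-- A finitely supported non-unimodal sequence has a valley. -/
lemma exists_valley (h : ℕ → ℕ) (N : ℕ) (hz : ∀ i, N ≤ i → h i = 0) (hn : ¬ Unimodal h) :
    ∃ a w b, a < w ∧ w < b ∧ h w < h a ∧ h w < h b := by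
  by_contra hcon
  push Not at hcon
  apply hn
  obtain ⟨m, -, hm⟩ := Finset.exists_max_image (Finset.range (N + 1)) h ⟨0, by simp⟩
  have hm' : ∀ i, h i ≤ h m := by
    intro i
    by_cases hi : i < N + 1
    · exact hm i (by simpa using hi)
    · rw [hz i (by omega)]; omega
  refine ⟨m, ?_, ?_⟩
  · intro i j hij hjm
    by_contra hlt
    have hlt' : h j < h i := by omega
    have h1 : i < j := by
      rcases Nat.lt_or_ge i j with h | h
      · exact h
      · have : i = j := by omega
        subst this; omega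
    have h2 : j < m := by
      rcases Nat.lt_or_ge j m with h | h
      · exact h
      · have : j = m := by omega
        subst this
        have := hm' i; omega
    have := hcon i j m h1 h2 hlt'
    have := hm' i
    omega
  · intro i j hmi hij
    by_contra hlt
    have hlt' : h i < h j := by omega
    have h1 : i < j := by
      rcases Nat.lt_or_ge i j with h | h
      · exact h
      · have : i = j := by omega
        subst this; omega
    have h2 : m < i := by
      rcases Nat.lt_or_ge m i with h | h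
      · exact h
      · have : i = m := by omega
        subst this
        have := hm' j; omega
    have h3 : h i < h m := by
      have := hm' j; omega
    have := hcon m i j h2 h1 h3
    omega

/-- Structure around a valley of least value. -/
lemma valley_structure (h : ℕ → ℕ) (N : ℕ) (hz : ∀ i, N ≤ i → h i = 0)
    (hpos : ∀ i j, i ≤ j → h i = 0 → h j = 0) (hn : ¬ Unimodal h) :
    ∃ p w t b, p < w ∧ w < b ∧ w ≤ t ∧ h w < h b ∧
      (∀ i j, i ≤ j → j < p → h i ≤ h j) ∧ (∀ i, i < p → h i < h w) ∧
      (∀ i, p ≤ i → i ≤ t → h w ≤ h i) ∧ (∀ i, t < i → h i < h w) ∧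
      (∀ i j, t < i → i ≤ j → h j ≤ h i) := by
  classical
  obtain ⟨a0, w0, b0, h1, h2, h3, h4⟩ := exists_valley h N hz hn
  have hex : ∃ α, ∃ a w b, a < w ∧ w < b ∧ h w < h a ∧ h w < h b ∧ h w = α :=
    ⟨h w0, a0, w0, b0, h1, h2, h3, h4, rfl⟩
  obtain ⟨a, w, b, haw, hwb, hwa, hwb', hα⟩ := Nat.find_spec hex
  have hmin : ∀ a' w' b', a' < w' → w' < b' → h w' < h a' → h w' < h b' → h w ≤ h w' := by
    intro a' w' b' g1 g2 g3 g4
    rw [hα]
    exact Nat.find_min' hex ⟨a', w', b', g1, g2, g3, g4, rfl⟩
  have hwpos : 0 < h w := by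
    rcases Nat.eq_zero_or_pos (h w) with h0 | h0
    · have := hpos w b hwb.le h0
      omega
    · exact h0
  have hexp : ∃ p, p ≤ w ∧ ∀ j, p ≤ j → j ≤ w → h w ≤ h j :=
    ⟨w, le_rfl, fun j g1 g2 => by
      have : j = w := by omega
      subst this; exact le_rfl⟩
  have hext : ∃ t, w ≤ t ∧ h (t + 1) < h w :=
    ⟨max N w, le_max_right _ _, by rw [hz _ (by omega)]; exact hwpos⟩
  set p := Nat.find hexp with hp
  set t := Nat.find hext with ht
  have hp1 := Nat.find_spec hexp
  have ht1 := Nat.find_spec hext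
  rw [← hp] at hp1
  rw [← ht] at ht1
  have hab : ∀ i, a ≤ i → i ≤ b → h w ≤ h i := by
    intro i g1 g2
    by_contra hcon
    have : h w ≤ h i := by
      apply hmin a i b
      · rcases Nat.lt_or_ge a i with g | g
        · exact g
        · have : i = a := by omega
          subst this; omega
      · rcases Nat.lt_or_ge i b with g | g
        · exact g
        · have : i = b := by omega
          subst this; omega
      · omega
      · omega
    omega
  have hpa : p ≤ a := by
    apply Nat.find_min'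
    exact ⟨haw.le, fun j g1 g2 => hab j g1 (by omega)⟩
  have hpw : p < w := by omega
  have hrun : ∀ i, p ≤ i → i ≤ t → h w ≤ h i := by
    intro i g1 g2
    by_cases hi : i ≤ w
    · exact hp1.2 i g1 hi
    · by_contra hcon
      have : t ≤ i - 1 := by
        apply Nat.find_min'
        refine ⟨by omega, ?_⟩
        have : i - 1 + 1 = i := by omega
        rw [this]; omega
      omega
  have hplt : 0 < p → h (p - 1) < h w := by
    intro hp0
    by_contra hcon
    have : p ≤ p - 1 := by
      apply Nat.find_min'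
      refine ⟨by omega, ?_⟩
      intro j g1 g2
      by_cases hj : j = p - 1
      · subst hj; omega
      · exact hp1.2 j (by omega) g2
    omega
  have hlow : ∀ i, i < p → h i < h w := by
    intro i hi
    have h0 := hplt (by omega)
    by_contra hcon
    by_cases hi1 : i = p - 1
    · subst hi1; omega
    · have := hmin i (p - 1) w (by omega) (by omega) (by omega) (by omega)
      omega
  have hhigh : ∀ i, t < i → h i < h w := by
    intro i hi
    by_contra hcon
    by_cases hi1 : i = t + 1
    · subst hi1; omega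
    · have := hmin w (t + 1) i (by omega) (by omega) (by omega) (by omega)
      omega
  refine ⟨p, w, t, b, hpw, hwb, ht1.1, hwb', ?_, hlow, hrun, hhigh, ?_⟩
  · intro i j hij hjp
    by_contra hcon
    have g := hlow j hjp
    have hne : i ≠ j := by rintro rfl; omega
    have := hmin i j w (by omega) (by omega) (by omega) (by omega)
    omega
  · intro i j hti hij
    by_contra hcon
    have g := hhigh i hti
    have hne : i ≠ j := by rintro rfl; omega
    have := hmin w i j (by omega) (by omega) (by omega) (by omega)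
    omega

end combinatorics

section algebra

variable (k K : Type*) [Field k] [CommRing K] [IsLocalRing K] [Algebra k K]

/-- `m ^ i` as a `k`-subspace. -/
noncomputable def F (i : ℕ) : Submodule k K := ((maximalIdeal K) ^ i).restrictScalars k

lemma F_le {i j : ℕ} (hij : i ≤ j) : F k K j ≤ F k K i := by
  intro x hx
  exact Ideal.pow_le_pow_right hij hx

lemma mem_F {i : ℕ} {x : K} : x ∈ F k K i ↔ x ∈ (maximalIdeal K) ^ i := Iff.rfl

variable [Module.Finite k K]

lemma hilb_add (i : ℕ) :
    hilb k K i + Module.finrank k (F k K (i + 1)) = Module.finrank k (F k K i) := by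
  unfold hilb
  have h1 := Submodule.finrank_quotient_add_finrank
    ((((maximalIdeal K) ^ (i + 1)).restrictScalars k).submoduleOf
        (((maximalIdeal K) ^ i).restrictScalars k))
  have h2 := (Submodule.submoduleOfEquivOfLe (F_le k K (Nat.le_succ i))).finrank_eq
  unfold F at *
  rw [h2] at h1
  exact h1

lemma exists_F_eq_bot : ∃ N, ∀ i, N ≤ i → F k K i = ⊥ := by
  have : IsArtinianRing K := IsArtinianRing.of_finite k K
  obtain ⟨N, hN⟩ := IsArtinianRing.isNilpotent_jacobson_bot (R := K)
  rw [IsLocalRing.jacobson_eq_maximalIdeal ⊥ bot_ne_top] at hN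
  refine ⟨N, fun i hi => ?_⟩
  rw [eq_bot_iff]
  intro x hx
  have : x ∈ (maximalIdeal K) ^ N := Ideal.pow_le_pow_right hi hx
  rw [hN] at this
  simpa using this

lemma hilb_eq_zero {N : ℕ} (hN : ∀ i, N ≤ i → F k K i = ⊥) (i : ℕ) (hi : N ≤ i) :
    hilb k K i = 0 := by
  have h1 := hilb_add k K i
  rw [hN i hi, finrank_bot] at h1
  omega

lemma hilb_zero_imp (i j : ℕ) (hij : i ≤ j) (h0 : hilb k K i = 0) : hilb k K j = 0 := by
  have h1 := hilb_add k K i
  rw [h0, zero_add] at h1
  have h2 : F k K (i + 1) = F k K i :=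
    Submodule.eq_of_le_of_finrank_eq (F_le k K (Nat.le_succ i)) h1
  have h3 : ∀ n, F k K (i + n) = F k K i := by
    intro n
    induction n with
    | zero => rfl
    | succ n ih =>
      have h2' : (maximalIdeal K) ^ (i + 1) = (maximalIdeal K) ^ i := by
        ext x
        have := SetLike.ext_iff.mp h2 x
        simpa [mem_F] using this
      have ih' : (maximalIdeal K) ^ (i + n) = (maximalIdeal K) ^ i := by
        ext x
        have := SetLike.ext_iff.mp ih x
        simpa [mem_F] using this
      have : (maximalIdeal K) ^ (i + (n + 1)) = (maximalIdeal K) ^ i := by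
        rw [← add_assoc, pow_succ, ih', ← pow_succ, h2']
      ext x
      rw [mem_F, mem_F, this]
  obtain ⟨n, rfl⟩ := Nat.exists_eq_add_of_le hij
  have h4 := hilb_add k K (i + n)
  rw [add_assoc, h3, h3] at h4
  omega

lemma sum_hilb (a b : ℕ) (hab : a ≤ b) :
    ∑ i ∈ Finset.Ico a b, hilb k K i + Module.finrank k (F k K b)
      = Module.finrank k (F k K a) := by
  induction b, hab using Nat.le_induction with
  | base => simp
  | succ b hb ih =>
    rw [Finset.sum_Ico_succ_top hb, add_assoc, hilb_add, ih]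

/-- multiplication by `ℓ ^ s` -/
noncomputable def mulPow (ℓ : K) (s : ℕ) : K →ₗ[k] K := LinearMap.mulLeft k (ℓ ^ s)

omit [Module.Finite k K] in
lemma map_mulPow_le {ℓ : K} (hℓ : ℓ ∈ maximalIdeal K) (s i : ℕ) :
    (F k K i).map (mulPow k K ℓ s) ≤ F k K (i + s) := by
  rintro _ ⟨x, hx, rfl⟩
  rw [mem_F, add_comm, pow_add]
  exact Ideal.mul_mem_mul (Ideal.pow_mem_pow hℓ s) hx

/-- if the map `m^(w-1) → m^w / m^(w+1)` given by `ℓ` is onto then `h` decreases from `w` on. -/
lemma hilb_antitone_of_surj {ℓ : K} (hℓ : ℓ ∈ maximalIdeal K) (w : ℕ)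
    (hs : (maximalIdeal K) ^ (w + 1) ≤
      Ideal.span {ℓ} * (maximalIdeal K) ^ w ⊔ (maximalIdeal K) ^ (w + 2)) (i : ℕ) (hi : w ≤ i) :
    hilb k K (i + 1) ≤ hilb k K i := by
  have hs' : ∀ n, (maximalIdeal K) ^ (w + n + 1) ≤
      Ideal.span {ℓ} * (maximalIdeal K) ^ (w + n) ⊔ (maximalIdeal K) ^ (w + n + 2) := by
    intro n
    induction n with
    | zero => simpa using hs
    | succ n ih =>
      have h1 : (maximalIdeal K) ^ (w + (n + 1) + 1)
          = maximalIdeal K * (maximalIdeal K) ^ (w + n + 1) := by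
        rw [← pow_succ']; congr 1
      rw [h1]
      refine (Ideal.mul_mono_right ih).trans ?_
      rw [Ideal.mul_sup]
      apply sup_le_sup
      · rw [mul_left_comm, ← pow_succ']
        exact le_of_eq (by congr 2)
      · rw [← pow_succ']
        exact le_of_eq (by congr 1)
  obtain ⟨n, rfl⟩ := Nat.exists_eq_add_of_le hi
  -- F (w+n+1) ≤ map (F (w+n)) ⊔ F (w+n+2)
  set j := w + n with hj
  have h1 : F k K (j + 1) ≤ (F k K j).map (mulPow k K ℓ 1) ⊔ F k K (j + 2) := by
    intro x hx
    have := hs' n hx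
    rw [Submodule.mem_sup] at this
    obtain ⟨y, hy, z, hz, rfl⟩ := this
    refine Submodule.add_mem_sup ?_ hz
    rw [Ideal.mem_span_singleton_mul] at hy
    obtain ⟨u, hu, rfl⟩ := hy
    exact ⟨u, hu, by simp [mulPow]⟩
  -- the finrank of the image mod F (j+2)
  have h2 : Module.finrank k (F k K (j + 1)) ≤
      Module.finrank k ((F k K j).map (mulPow k K ℓ 1) ⊔ F k K (j + 2) : Submodule k K) :=
    Submodule.finrank_mono h1
  -- consider the linear map F j → K ⧸ F (j+2)
  let φ : F k K j →ₗ[k] (K ⧸ F k K (j + 2)) :=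
    (F k K (j + 2)).mkQ ∘ₗ (mulPow k K ℓ 1) ∘ₗ (F k K j).subtype
  have h3 : (F k K (j + 1)).submoduleOf (F k K j) ≤ LinearMap.ker φ := by
    intro x hx
    replace hx : (x : K) ∈ F k K (j + 1) := hx
    rw [LinearMap.mem_ker]
    simp only [φ, LinearMap.comp_apply, Submodule.mkQ_apply, Submodule.subtype_apply]
    rw [Submodule.Quotient.mk_eq_zero]
    exact map_mulPow_le k K hℓ 1 (j + 1) ⟨_, hx, rfl⟩
  have h4 : Module.finrank k (LinearMap.range φ) + Module.finrank k (LinearMap.ker φ)
      = Module.finrank k (F k K j) := LinearMap.finrank_range_add_finrank_ker φ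
  have h5 : Module.finrank k (F k K (j + 1)) ≤ Module.finrank k (LinearMap.ker φ) := by
    rw [← (Submodule.submoduleOfEquivOfLe (F_le k K (Nat.le_succ j))).finrank_eq]
    exact Submodule.finrank_mono h3
  have h6 : LinearMap.range φ =
      ((F k K j).map (mulPow k K ℓ 1) ⊔ F k K (j + 2)).map (F k K (j + 2)).mkQ := by
    rw [Submodule.map_sup]
    have : (F k K (j + 2)).map (F k K (j + 2)).mkQ = ⊥ := Submodule.mkQ_map_self _
    rw [this, sup_bot_eq]
    ext x
    simp only [φ, LinearMap.mem_range, LinearMap.comp_apply, Submodule.mem_map]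
    constructor
    · rintro ⟨y, rfl⟩
      exact ⟨_, ⟨y.1, y.2, rfl⟩, rfl⟩
    · rintro ⟨_, ⟨y, hy, rfl⟩, rfl⟩
      exact ⟨⟨y, hy⟩, rfl⟩
  have h7 : Module.finrank k (((F k K j).map (mulPow k K ℓ 1) ⊔ F k K (j + 2)).map
      (F k K (j + 2)).mkQ) + Module.finrank k (F k K (j + 2))
      = Module.finrank k ((F k K j).map (mulPow k K ℓ 1) ⊔ F k K (j + 2) : Submodule k K) := by
    set G := (F k K j).map (mulPow k K ℓ 1) ⊔ F k K (j + 2) with hG
    have hle : F k K (j + 2) ≤ G := le_sup_right
    let ψ : G →ₗ[k] (K ⧸ F k K (j + 2)) := (F k K (j + 2)).mkQ ∘ₗ G.subtype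
    have e1 := LinearMap.finrank_range_add_finrank_ker ψ
    have e2 : LinearMap.range ψ = G.map (F k K (j + 2)).mkQ := by
      rw [LinearMap.range_comp, Submodule.range_subtype]
    have e3 : LinearMap.ker ψ = (F k K (j + 2)).submoduleOf G := by
      ext x
      rw [LinearMap.mem_ker]
      simp only [ψ, LinearMap.comp_apply, Submodule.mkQ_apply, Submodule.subtype_apply]
      rw [Submodule.Quotient.mk_eq_zero]
      exact Iff.rfl
    rw [e2, e3, (Submodule.submoduleOfEquivOfLe hle).finrank_eq] at e1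
    exact e1
  have h8 := hilb_add k K j
  have h9 := hilb_add k K (j + 1)
  rw [h6] at h4
  have : j + 1 + 1 = j + 2 := rfl
  rw [this] at h9
  omega

/-- rank inequality -/
lemma finrank_map_le {V : Type*} [AddCommGroup V] [Module k V] [Module.Finite k V]
    (G A B : Submodule k V) (g : V →ₗ[k] V) (hA : A ≤ G) (hAB : A.map g ≤ B) :
    Module.finrank k (G.map g) + Module.finrank k A
      ≤ Module.finrank k G + Module.finrank k B := by
  have key : ∀ S : Submodule k V, Module.finrank k (S.map g) +
      Module.finrank k (S ⊓ LinearMap.ker g : Submodule k V) = Module.finrank k S := by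
    intro S
    have h1 := LinearMap.finrank_range_add_finrank_ker (g.domRestrict S)
    rw [LinearMap.range_domRestrict] at h1
    have h2 : LinearMap.ker (g.domRestrict S) = (LinearMap.ker g).comap S.subtype := rfl
    rw [h2] at h1
    rw [← Submodule.map_comap_subtype, Submodule.finrank_map_subtype_eq]
    exact h1
  have k1 := key G
  have k2 := key A
  have k3 : Module.finrank k (A ⊓ LinearMap.ker g : Submodule k V)
      ≤ Module.finrank k (G ⊓ LinearMap.ker g : Submodule k V) :=
    Submodule.finrank_mono (inf_le_inf_right _ hA)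
  have k4 := Submodule.finrank_mono hAB
  omega

omit [IsLocalRing K] in
/-- lower bound for the rank coming from the Jordan type. -/
lemma sum_le_rank (ℓ : K) (P : Multiset ℕ) (hP : IsJordanType k K ℓ P) (s : ℕ) :
    (P.map (fun x => x - s)).sum ≤ Module.finrank k ((⊤ : Submodule k K).map (mulPow k K ℓ s)) := by
  obtain ⟨n, len, v, -, -, hli, -, rfl⟩ := hP
  rw [Multiset.map_map]
  have e : (Multiset.map ((fun x => x - s) ∘ len) (Finset.univ : Finset (Fin n)).val).sum
      = Fintype.card (Σ i : Fin n, Fin (len i - s)) := by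
    rw [Fintype.card_sigma]
    simp [Finset.sum]
  rw [e]
  let ι : (Σ i : Fin n, Fin (len i - s)) → (Σ i : Fin n, Fin (len i)) :=
    fun p => ⟨p.1, ⟨s + p.2.1, by have := p.2.2; omega⟩⟩
  have hι : Function.Injective ι := by
    rintro ⟨i, j⟩ ⟨i', j'⟩ h
    simp only [ι, Sigma.mk.injEq] at h
    obtain ⟨h1, h2⟩ := h
    subst h1
    simp only [heq_eq_eq, Fin.mk.injEq] at h2
    congr 1
    apply Fin.ext
    omega
  have h2 := hli.comp ι hι
  let v' : (Σ i : Fin n, Fin (len i - s)) → ((⊤ : Submodule k K).map (mulPow k K ℓ s)) :=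
    fun p => ⟨ℓ ^ s * (ℓ ^ (p.2 : ℕ) * v p.1), ⟨ℓ ^ (p.2 : ℕ) * v p.1, trivial, rfl⟩⟩
  have h3 : LinearIndependent k v' := by
    apply LinearIndependent.of_comp ((⊤ : Submodule k K).map (mulPow k K ℓ s)).subtype
    convert h2 using 1
    funext p
    simp only [Function.comp_apply, Submodule.subtype_apply, v', ι]
    rw [pow_add, mul_assoc]
  exact h3.fintype_card_le_finrank

end algebra

/-- For every local algebra `K`, finite dimensional over a field `k`, whose Hilbert function is
not unimodal, and every `ℓ` in the maximal ideal, the Jordan type of multiplication by `ℓ`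
is not the contiguous partition of the Hilbert function. -/
theorem result (k K : Type*) [Field k] [CommRing K] [IsLocalRing K] [Algebra k K]
    [Module.Finite k K] (hH : ¬ Unimodal (hilb k K)) (ℓ : K) (hℓ : ℓ ∈ maximalIdeal K) :
    (runs (hilb k K)).Finite ∧
      ∀ P : Multiset ℕ, IsJordanType k K ℓ P → ¬ IsContiguousPartition (hilb k K) P := by
  obtain ⟨N, hN⟩ := exists_F_eq_bot k K
  refine ⟨runs_finite _ N (Module.finrank k K) (hilb_eq_zero k K hN) (fun i => ?_), ?_⟩
  · have h1 := hilb_add k K i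
    have h2 := Submodule.finrank_le (F k K i)
    omega
  rintro P hJ ⟨hf, hPc⟩
  obtain ⟨p, w, t, b, hpw, hwb, hwt, hb, hinc, hlow, hmid, hhigh, hdec⟩ :=
    valley_structure (hilb k K) N (hilb_eq_zero k K hN) (hilb_zero_imp k K) hH
  set h := hilb k K with hh
  set s := t - p with hs
  -- the window function
  let g : ℕ → ℕ := fun i => if i < p then h i else if i = p then h w else h (i + s)
  have hg : ∀ i, ∀ j, i ≤ j → j ≤ i + s → g i ≤ h j := by
    intro i j hij hjs
    simp only [g]
    split_ifs with h1 h2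
    · by_cases hj : j < p
      · exact hinc i j hij hj
      · exact (hlow i h1).le.trans (hmid j (by omega) (by omega))
    · exact hmid j (by omega) (by omega)
    · by_cases hj : j ≤ t
      · exact (hhigh (i + s) (by omega)).le.trans (hmid j (by omega) hj)
      · exact hdec j (i + s) (by omega) hjs
  have hcount := sum_le_runs h s N g hf (hilb_eq_zero k K hN) hg (N + p + 1)
  have hrank := sum_le_rank k K ℓ P hJ s
  have hPsum : (P.map (fun x => x - s)).sum = ∑ r ∈ hf.toFinset, (r.2.2 + 1 - r.2.1 - s) := by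
    rw [hPc, Multiset.map_map]
    rfl
  rw [hPsum] at hrank
  -- evaluate the sum of g
  have hsum : ∑ i ∈ Finset.range (N + p + 1), g i =
      ∑ i ∈ Finset.Ico 0 p, h i + h w + ∑ i ∈ Finset.Ico (t + 1) (N + t + 1), h i := by
    have e1 : Finset.range (N + p + 1) = Finset.Ico 0 (N + p + 1) := by
      rw [Nat.Ico_zero_eq_range]
    rw [e1, ← Finset.sum_Ico_consecutive g (Nat.zero_le p) (by omega : p ≤ N + p + 1),
      Finset.sum_eq_sum_Ico_succ_bot (by omega : p < N + p + 1), ← add_assoc]
    congr 1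
    · congr 1
      · apply Finset.sum_congr rfl
        intro i hi
        rw [Finset.mem_Ico] at hi
        simp [g, hi.2]
      · simp [g]
    · have e2 : Finset.Ico (t + 1) (N + t + 1) =
          (Finset.Ico (p + 1) (N + p + 1)).map (addRightEmbedding s) := by
        rw [Finset.map_add_right_Ico]
        congr 1 <;> omega
      rw [e2, Finset.sum_map]
      apply Finset.sum_congr rfl
      intro i hi
      rw [Finset.mem_Ico] at hi
      have h1 : ¬ i < p := by omega
      have h2 : i ≠ p := by omega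
      simp [g, h1, h2]
  have hD0 := sum_hilb k K 0 p (Nat.zero_le p)
  have hDt := sum_hilb k K (t + 1) (N + t + 1) (by omega)
  rw [hN (N + t + 1) (by omega), finrank_bot, add_zero] at hDt
  -- upper bound of the rank
  have hF0 : F k K 0 = ⊤ := by
    ext x
    simp [mem_F]
  have hu1 := finrank_map_le k (⊤ : Submodule k K) (F k K p)
    ((F k K p).map (mulPow k K ℓ s)) (mulPow k K ℓ s) le_top le_rfl
  rw [← hF0] at hu1
  -- the submodule G
  set G := (F k K p).map (mulPow k K ℓ (w - p)) ⊔ F k K (w + 1) with hG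
  have hGle : G ≤ F k K w := by
    apply sup_le _ (F_le k K (Nat.le_succ w))
    have := map_mulPow_le k K hℓ (w - p) p
    rwa [show p + (w - p) = w by omega] at this
  have hGne : G ≠ F k K w := by
    intro hGeq
    have hs' : (maximalIdeal K) ^ (w - 1 + 1) ≤
        Ideal.span {ℓ} * (maximalIdeal K) ^ (w - 1) ⊔ (maximalIdeal K) ^ (w - 1 + 2) := by
      rw [show w - 1 + 1 = w by omega, show w - 1 + 2 = w + 1 by omega]
      intro x hx
      have hx' : x ∈ G := by rw [hGeq]; exact hx
      rw [hG, Submodule.mem_sup] at hx'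
      obtain ⟨y, hy, z, hz, rfl⟩ := hx'
      refine Submodule.add_mem_sup ?_ hz
      obtain ⟨u, hu, rfl⟩ := hy
      rw [Ideal.mem_span_singleton_mul]
      refine ⟨ℓ ^ (w - p - 1) * u, ?_, ?_⟩
      · have := map_mulPow_le k K hℓ (w - p - 1) p ⟨u, hu, rfl⟩
        rw [show p + (w - p - 1) = w - 1 by omega] at this
        exact this
      · rw [← mul_assoc, ← pow_succ', show w - p - 1 + 1 = w - p by omega]
        rfl
    have hanti := hilb_antitone_of_surj k K hℓ (w - 1) hs'
    have : ∀ n, h (w + n) ≤ h w := by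
      intro n
      induction n with
      | zero => exact le_rfl
      | succ n ih => exact (hanti (w + n) (by omega)).trans ih
    obtain ⟨n, hn⟩ := Nat.exists_eq_add_of_lt hwb
    have := this (n + 1)
    rw [← add_assoc, ← hn] at this
    omega
  have hGlt : Module.finrank k G < Module.finrank k (F k K w) :=
    Submodule.finrank_lt_finrank_of_lt (lt_of_le_of_ne hGle hGne)
  have hu2 := finrank_map_le k G (F k K (w + 1)) (F k K (t + 1)) (mulPow k K ℓ (t - w))
    le_sup_right (by
      have := map_mulPow_le k K hℓ (t - w) (w + 1)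
      rwa [show w + 1 + (t - w) = t + 1 by omega] at this)
  have hu3 : (F k K p).map (mulPow k K ℓ s) ≤ G.map (mulPow k K ℓ (t - w)) := by
    rintro _ ⟨x, hx, rfl⟩
    refine ⟨ℓ ^ (w - p) * x, Submodule.mem_sup_left ⟨x, hx, rfl⟩, ?_⟩
    simp only [mulPow, LinearMap.mulLeft_apply]
    rw [← mul_assoc, ← pow_add]
    congr 2
    omega
  have hu4 := Submodule.finrank_mono hu3
  have hhw := hilb_add k K w
  rw [← hh] at hhw hD0 hDt
  rw [← hF0] at hrank
  omega

end Pool.Agent.Results.MP_de5a23_al.NoContiguousJordanType
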